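import Pool.Agent.helper17.EXC.Spec

set_option autoImplicit false

open Finset

namespace Pool.Agent.EXC

/-- the conditions on a dominant root supported on `J` -/
def DOM_good {n : ℕ} (C : Matrix (Fin n) (Fin n) ℤ) (J : Finset (Fin n)) (g : Fin n → ℤ) : Prop :=
  ip C g g = 2 ∧ (∀ i, i ∉ J → g i = 0) ∧ ∀ i ∈ J, 0 ≤ ip C (sr i) g

theorem DOM_sum_nonneg {n : ℕ} (C : Matrix (Fin n) (Fin n) ℤ) (J : Finset (Fin n)) (g v : Fin n → ℤ)
    (hg : ∀ i ∈ J, 0 ≤ ip C (sr i) g) (hv : Pos v) (hvJ : ∀ i, i ∉ J → v i = 0) : 0 ≤ ip C v g := by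
  rw [ip_eq_sum]
  refine Finset.sum_nonneg fun i _ => ?_
  by_cases hi : i ∈ J
  · exact mul_nonneg (hv i) (hg i hi)
  · rw [hvJ i hi, zero_mul]

theorem DOM_pos {n : ℕ} (C : Matrix (Fin n) (Fin n) ℤ) [IsC C] (hDIC : DIC_stmt) (J : Finset (Fin n)) (g : Fin n → ℤ)
    (hg : DOM_good C J g) : Pos g := by
  obtain ⟨h2, hJ, hd⟩ := hg
  rcases hDIC n C g h2 with h | h
  · exact h
  · exfalso
    have h0 := DOM_sum_nonneg C J g (-g) hd h (fun i hi => by rw [Pi.neg_apply, hJ i hi, neg_zero])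
    rw [ip_neg_left] at h0
    omega

theorem DOM_full {n : ℕ} (C : Matrix (Fin n) (Fin n) ℤ) [IsC C] (hDIC : DIC_stmt) (J : Finset (Fin n)) (hJc : Conn C J)
    (g : Fin n → ℤ) (hg : DOM_good C J g) : ∀ i ∈ J, 0 < g i := by
  classical
  have hp := DOM_pos C hDIC J g hg
  obtain ⟨h2, hJ, hd⟩ := hg
  by_contra hcon
  push Not at hcon
  obtain ⟨i₀, hi₀, hg₀⟩ := hcon
  set K : Finset (Fin n) := J.filter fun i => 0 < g i with hK
  have hKn : K.Nonempty := by
    by_contra hne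
    rw [Finset.not_nonempty_iff_eq_empty] at hne
    have h0 : g = 0 := by
      funext i
      by_cases hi : i ∈ J
      · have h1 : i ∉ K := by rw [hne]; exact Finset.notMem_empty i
        rw [hK, Finset.mem_filter] at h1
        have h3 := hp i
        have h4 : ¬ 0 < g i := fun h => h1 ⟨hi, h⟩
        show g i = 0
        omega
      · exact hJ i hi
    rw [h0, ip_zero_left] at h2
    omega
  have hKJ : K ≠ J := by
    intro h
    have h1 : i₀ ∈ K := by rw [h]; exact hi₀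
    rw [hK, Finset.mem_filter] at h1
    omega
  obtain ⟨i, hi, j, hj, hC⟩ := hJc K (Finset.filter_subset _ _) hKn hKJ
  rw [Finset.mem_sdiff] at hj
  have hij : i ≠ j := fun h => hj.2 (h ▸ hi)
  have hgi : 0 < g i := by
    rw [hK, Finset.mem_filter] at hi
    exact hi.2
  have hgj : g j = 0 := by
    have h3 := hp j
    have h4 : ¬ 0 < g j := fun h => hj.2 (by rw [hK, Finset.mem_filter]; exact ⟨hj.1, h⟩)
    omega
  have hCn : C i j < 0 := lt_of_le_of_ne (IsC.off (C := C) i j hij) hC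
  have h5 := hd j hj.1
  rw [ip_comm, ip_sr_right] at h5
  have h6 : ∑ k, g k * C k j < 0 := by
    refine lt_of_lt_of_le (Finset.sum_lt_sum (g := fun _ => (0 : ℤ)) (fun k _ => ?_) ⟨i, Finset.mem_univ i, ?_⟩)
      (by rw [Finset.sum_const_zero])
    · by_cases hk : k = j
      · rw [hk, hgj, zero_mul]
      · exact mul_nonpos_of_nonneg_of_nonpos (hp k) (IsC.off (C := C) k j hk)
    · exact mul_neg_of_pos_of_neg hgi hCn
  omega

theorem DOM_unique {n : ℕ} (C : Matrix (Fin n) (Fin n) ℤ) [IsC C] (hDIC : DIC_stmt) (J : Finset (Fin n)) (hJc : Conn C J)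
    (g g' : Fin n → ℤ) (hg : DOM_good C J g) (hg' : DOM_good C J g') : g = g' := by
  have hp := DOM_pos C hDIC J g hg
  have hf' := DOM_full C hDIC J hJc g' hg'
  have hp' := DOM_pos C hDIC J g' hg'
  obtain ⟨h2, hJ, hd⟩ := hg
  obtain ⟨h2', hJ', hd'⟩ := hg'
  have hex : ∃ i ∈ J, 0 < ip C (sr i) g := by
    by_contra hcon
    push Not at hcon
    have h1 : ip C g g ≤ 0 := by
      rw [ip_eq_sum]
      refine Finset.sum_nonpos fun i _ => ?_
      by_cases hi : i ∈ J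
      · exact mul_nonpos_of_nonneg_of_nonpos (hp i) (hcon i hi)
      · rw [hJ i hi, zero_mul]
    omega
  have hpos : 0 < ip C g' g := by
    obtain ⟨i, hi, hi'⟩ := hex
    rw [ip_eq_sum]
    refine Finset.sum_pos' (fun k _ => ?_) ⟨i, Finset.mem_univ i, mul_pos (hf' i hi) hi'⟩
    by_cases hk : k ∈ J
    · exact mul_nonneg (hp' k) (hd k hk)
    · rw [hJ' k hk, zero_mul]
  have hle := (ip_abs_le h2' h2).2
  have hcase : ip C g' g = 2 ∨ ip C g' g = 1 := by omega
  rcases hcase with h | h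
  · exact (eq_of_ip_eq_two h2' h2 h).symm
  · exfalso
    have hr := (sub_root_iff h2' h2).2 h
    have h' : ip C g g' = 1 := by rw [ip_comm]; exact h
    rcases hDIC n C (g' - g) hr with h1 | h1
    · have h3 := DOM_sum_nonneg C J g (g' - g) hd h1
        (fun i hi => by rw [Pi.sub_apply, hJ i hi, hJ' i hi, sub_zero])
      rw [ip_sub_left] at h3
      omega
    · have h3 := DOM_sum_nonneg C J g' (-(g' - g)) hd' h1
        (fun i hi => by rw [Pi.neg_apply, Pi.sub_apply, hJ i hi, hJ' i hi, sub_zero, neg_zero])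
      rw [neg_sub, ip_sub_left] at h3
      omega

theorem DOM_exists {n : ℕ} (C : Matrix (Fin n) (Fin n) ℤ) [IsC C] (hRFL : RFL_stmt) (J : Finset (Fin n))
    (v : Fin n → ℤ) (h2 : ip C v v = 2) (hJ : ∀ i, i ∉ J → v i = 0) :
    ∃ g, DOM_good C J g ∧ Relation.ReflTransGen (fun a b => ∃ i ∈ J, b = rf C i a) v g := by
  have hpres : ∀ g, Relation.ReflTransGen (fun a b => ∃ i ∈ J, b = rf C i a) v g →
      ip C g g = 2 ∧ ∀ i, i ∉ J → g i = 0 := by
    intro g hg
    induction hg with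
    | refl => exact ⟨h2, hJ⟩
    | tail _ h ih =>
      obtain ⟨i, hi, rfl⟩ := h
      obtain ⟨q1, q2, q3, q4, q5⟩ := hRFL n C i _ _
      refine ⟨q1.trans ih.1, fun j hj => ?_⟩
      rw [q5 j (fun h => hj (h ▸ hi))]
      exact ih.2 j hj
  let s : Set (Rt C) := {g | Relation.ReflTransGen (fun a b => ∃ i ∈ J, b = rf C i a) v g.1}
  have hs : s.Nonempty := ⟨⟨v, h2⟩, Relation.ReflTransGen.refl⟩
  obtain ⟨g, hgs, hmax⟩ := Set.exists_max_image s (fun g => ∑ i, g.1 i) (Set.toFinite s) hs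
  have hgs' : Relation.ReflTransGen (fun a b => ∃ i ∈ J, b = rf C i a) v g.1 := hgs
  refine ⟨g.1, ⟨g.2, (hpres g.1 hgs').2, fun i hi => ?_⟩, hgs'⟩
  have hstep : Relation.ReflTransGen (fun a b => ∃ i ∈ J, b = rf C i a) v (rf C i g.1) :=
    hgs'.tail ⟨i, hi, rfl⟩
  have h3 := hmax ⟨rf C i g.1, (hpres _ hstep).1⟩ hstep
  have h4 : ∑ k, rf C i g.1 k = ∑ k, g.1 k - ip C g.1 (sr i) := by
    unfold rf
    simp only [Pi.sub_apply, Pi.smul_apply, smul_eq_mul, Finset.sum_sub_distrib, ← Finset.mul_sum]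
    unfold sr
    rw [Finset.sum_pi_single']
    simp
  have h5 : ∑ k, rf C i g.1 k ≤ ∑ k, g.1 k := h3
  rw [ip_comm]
  omega

theorem DOM (hRFL : RFL_stmt) (hDIC : DIC_stmt) : DOM_stmt := by
  intro n C _ J hJc v w hv hw hvJ hwJ
  obtain ⟨g, hg, hvg⟩ := DOM_exists C hRFL J v hv hvJ
  obtain ⟨g', hg', hwg⟩ := DOM_exists C hRFL J w hw hwJ
  have heq := DOM_unique C hDIC J hJc g g' hg hg'
  subst heq
  haveI hsym : Std.Symm (fun a b : Fin n → ℤ => ∃ i ∈ J, b = rf C i a) := by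
    refine ⟨?_⟩
    rintro a b ⟨i, hi, rfl⟩
    obtain ⟨q1, q2, q3, q4, q5⟩ := hRFL n C i a a
    exact ⟨i, hi, q2.symm⟩
  exact hvg.trans (Relation.ReflTransGen.symmetric.symm _ _ hwg)

end Pool.Agent.EXC
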