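import Pool.Agent.helper17.EXC.SpecRA

set_option autoImplicit false

open Finset

namespace Pool.Agent.EXC

section
variable {n : ℕ} (C : Matrix (Fin n) (Fin n) ℤ) [IsC C] {F : Type} [Field F]

omit [IsC C] in
/-- the filtration by the height -/
def UPG_Fil (m : ℤ) (v : Lm C F) : Prop :=
  (0 < m → v.1 = 0) ∧ ∀ γ, ip C γ γ = 2 → ∑ i, γ i < m → cf v γ = 0

omit [IsC C] in
theorem UPG_Fil_add {m : ℤ} {v w : Lm C F} (hv : UPG_Fil C m v) (hw : UPG_Fil C m w) : UPG_Fil C m (v + w) := by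
  refine ⟨fun h => ?_, fun γ hγ h => ?_⟩
  · rw [Prod.fst_add, hv.1 h, hw.1 h, add_zero]
  · rw [cf_add, hv.2 γ hγ h, hw.2 γ hγ h, add_zero]

omit [IsC C] in
theorem UPG_Fil_neg {m : ℤ} {v : Lm C F} (hv : UPG_Fil C m v) : UPG_Fil C m (-v) := by
  refine ⟨fun h => ?_, fun γ hγ h => ?_⟩
  · rw [Prod.fst_neg, hv.1 h, neg_zero]
  · rw [cf_neg, hv.2 γ hγ h, neg_zero]

omit [IsC C] in
theorem UPG_Fil_mono {m m' : ℤ} (h : m' ≤ m) {v : Lm C F} (hv : UPG_Fil C m v) : UPG_Fil C m' v :=
  ⟨fun h' => hv.1 (by omega), fun γ hγ h' => hv.2 γ hγ (by omega)⟩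

theorem UPG_height (γ : Fin n → ℤ) (hγ : ip C γ γ = 2) (hp : Pos γ) : 1 ≤ ∑ i, γ i := by
  have h0 : 0 ≤ ∑ i, γ i := Finset.sum_nonneg fun i _ => hp i
  by_contra hcon
  have h1 : ∑ i, γ i = 0 := by omega
  have h2 := (Finset.sum_eq_zero_iff_of_nonneg fun i _ => hp i).1 h1
  have h3 : γ = 0 := funext fun i => h2 i (Finset.mem_univ i)
  rw [h3, ip_zero_left] at hγ
  omega

theorem UPG_gen (γ : Fin n → ℤ) (hγ : ip C γ γ = 2) (hp : Pos γ) (t : F) (m : ℤ) (v : Lm C F) (hv : UPG_Fil C m v) :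
    UPG_Fil C (m + 1) (xe C (E C γ) t v - v) := by
  have hh := UPG_height C γ hγ hp
  have hneg : ∑ i, (-γ) i = -∑ i, γ i := by
    simp [Finset.sum_neg_distrib]
  have hγn : ip C (-γ) (-γ) = 2 := by rw [ip_neg_left, ip_neg_right, neg_neg, hγ]
  obtain ⟨hb1, hb2⟩ := br_E (F := F) C hγ v
  have e1 : xe C (E C γ) t v - v = t • br C (E C γ) v + (t ^ 2 * cf v (-γ)) • (E C γ : Lm C F) := by
    unfold xe
    rw [fm_E C hγ]
    abel
  refine ⟨fun h => ?_, fun δ hδ h => ?_⟩
  · rw [e1, Prod.fst_add, Prod.smul_fst, Prod.smul_fst, E_fst, smul_zero, add_zero, hb1,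
      hv.2 (-γ) hγn (by rw [hneg]; omega), neg_zero, zero_smul, smul_zero]
  · rw [e1, cf_add, cf_smul, cf_smul, hb2 δ hδ, cf_E C hγ]
    by_cases hd : δ = γ
    · subst hd
      have hm : 0 < m := by omega
      rw [hv.2 (-δ) hγn (by rw [hneg]; omega), if_pos rfl, hv.1 hm, sub_self]
      have h3 : cf v (0 : Fin n → ℤ) = 0 := cf_eq_zero C v (by rw [ip_zero_left]; norm_num)
      rw [h3]
      simp
    · rw [if_neg hd, if_neg hd]
      have h4 : cf v (δ - γ) = 0 := by
        by_cases hr : ip C (δ - γ) (δ - γ) = 2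
        · refine hv.2 _ hr ?_
          have h5 : ∑ i, (δ - γ) i = ∑ i, δ i - ∑ i, γ i := by
            simp [Finset.sum_sub_distrib]
          rw [h5]
          omega
        · exact cf_eq_zero C v hr
      rw [h4]
      ring

/-- a bound of the heights -/
theorem UPG_bound : ∃ B : ℕ, ∀ γ, ip C γ γ = 2 → -(B : ℤ) ≤ ∑ i, γ i ∧ ∑ i, γ i ≤ B := by
  refine ⟨∑ α : Rt C, (∑ i, α.1 i).natAbs, fun γ hγ => ?_⟩
  have h1 : (∑ i, γ i).natAbs ≤ ∑ α : Rt C, (∑ i, α.1 i).natAbs :=
    Finset.single_le_sum (f := fun α : Rt C => (∑ i, α.1 i).natAbs) (fun _ _ => Nat.zero_le _)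
      (Finset.mem_univ (⟨γ, hγ⟩ : Rt C))
  omega

theorem UPG_all (u : Lm C F ≃ₗ[F] Lm C F) (hu : u ∈ UG C F) (m : ℤ) (v : Lm C F) (hv : UPG_Fil C m v) :
    UPG_Fil C (m + 1) (u v - v) := by
  obtain ⟨B, hB⟩ := UPG_bound C
  unfold UG at hu
  induction hu using Subgroup.closure_induction generalizing m v with
  | mem g hg =>
    obtain ⟨γ, hγ, hp, t, ht⟩ := hg
    rw [ht v]
    exact UPG_gen C γ hγ hp t m v hv
  | one =>
    have h : (1 : Lm C F ≃ₗ[F] Lm C F) v - v = 0 := sub_self v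
    rw [h]
    exact ⟨fun _ => rfl, fun γ _ _ => cf_zero C γ⟩
  | mul x y _ _ hx hy =>
    have e : (x * y) v - v = (x (y v - v) - (y v - v)) + (y v - v) + (x v - v) := by
      have h1 : (x * y) v = x (y v) := rfl
      rw [h1, map_sub]
      abel
    rw [e]
    refine UPG_Fil_add C (UPG_Fil_add C ?_ (hy m v hv)) (hx m v hv)
    exact UPG_Fil_mono C (by omega) (hx (m + 1) _ (hy m v hv))
  | inv x _ hx =>
    set w := x⁻¹ v with hw
    have hxw : x w = v := by
      rw [hw]
      have h1 : x (x⁻¹ v) = (x * x⁻¹) v := rfl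
      rw [h1, mul_inv_cancel]
      rfl
    have hk : ∀ k : ℕ, -(B : ℤ) + k ≤ m → UPG_Fil C (-(B : ℤ) + k) w := by
      intro k
      induction k with
      | zero =>
        intro _
        refine ⟨fun h => ?_, fun γ hγ h => ?_⟩
        · exfalso
          push_cast at h
          omega
        · exfalso
          have := (hB γ hγ).1
          push_cast at h
          omega
      | succ k ih =>
        intro hkm
        push_cast at hkm
        have h1 := hx _ w (ih (by omega))
        have h2 : w = v + -(x w - w) := by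
          rw [hxw]
          abel
        rw [h2]
        refine UPG_Fil_add C (UPG_Fil_mono C ?_ hv) (UPG_Fil_neg C (UPG_Fil_mono C ?_ h1))
        · push_cast
          omega
        · push_cast
          omega
    have hm : UPG_Fil C m w := by
      by_cases h : -(B : ℤ) ≤ m
      · obtain ⟨k, hk'⟩ := Int.le.dest h
        have h1 := hk k hk'.le
        rwa [hk'] at h1
      · refine ⟨fun h' => ?_, fun γ hγ h' => ?_⟩
        · exfalso
          omega
        · exfalso
          have := (hB γ hγ).1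
          omega
    have h3 := UPG_Fil_neg C (hx m w hm)
    rw [hxw, neg_sub] at h3
    exact h3

end

theorem UPG (hACT : ACT_stmt) : UPG_stmt := by
  have _ := hACT
  intro n C _ F _ p hp hchar u hu
  obtain ⟨B, hB⟩ := UPG_bound C
  let φ : (Lm C F ≃ₗ[F] Lm C F) →* (Lm C F →ₗ[F] Lm C F) :=
    LinearEquiv.automorphismGroup.toLinearMapMonoidHom
  let T : Module.End F (Lm C F) := φ u - 1
  have hT : ∀ v, T v = u v - v := fun v => rfl
  have hpow : ∀ (k : ℕ) (v : Lm C F), UPG_Fil C (-(B : ℤ) + k) ((T ^ k) v) := by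
    intro k
    induction k with
    | zero =>
      intro v
      refine ⟨fun h => ?_, fun γ hγ h => ?_⟩
      · exfalso
        push_cast at h
        omega
      · exfalso
        have := (hB γ hγ).1
        push_cast at h
        omega
    | succ k ih =>
      intro v
      have h1 := UPG_all C u hu _ _ (ih v)
      rw [← hT] at h1
      have h2 : (T ^ (k + 1)) v = T ((T ^ k) v) := by
        rw [pow_succ']
        rfl
      rw [h2]
      refine UPG_Fil_mono C ?_ h1
      push_cast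
      omega
  have hT0 : T ^ (2 * B + 1) = 0 := by
    refine LinearMap.ext fun v => ?_
    have h1 := hpow (2 * B + 1) v
    refine Lm_ext C (h1.1 (by push_cast; omega)) fun γ hγ => ?_
    rw [h1.2 γ hγ (by have := (hB γ hγ).2; push_cast; omega)]
    exact (cf_zero C γ).symm
  have hp0 : (p : Module.End F (Lm C F)) = 0 := by
    refine LinearMap.ext fun v => ?_
    have h1 : (p : Module.End F (Lm C F)) v = (p : F) • v := by
      rw [Nat.cast_smul_eq_nsmul]
      exact Module.End.natCast_apply p v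
    rw [h1, CharP.cast_eq_zero, zero_smul]
    rfl
  obtain ⟨r, hr⟩ := Commute.exists_add_pow_prime_pow_eq hp (Commute.one_left T) (2 * B + 1)
  have hlt : 2 * B + 1 ≤ p ^ (2 * B + 1) := (Nat.lt_pow_self hp.one_lt).le
  have hTp : T ^ p ^ (2 * B + 1) = 0 := pow_eq_zero_of_le hlt hT0
  rw [hp0] at hr
  simp only [zero_mul, add_zero, one_pow, hTp] at hr
  have h1T : (1 : Module.End F (Lm C F)) + T = φ u := add_sub_cancel _ _
  rw [h1T] at hr
  refine ⟨2 * B + 1, ?_⟩
  have h2 : φ (u ^ p ^ (2 * B + 1)) = φ 1 := by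
    rw [map_pow, map_one]
    exact hr
  refine LinearEquiv.ext fun v => ?_
  exact LinearMap.congr_fun h2 v

end Pool.Agent.EXC
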